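import Pool.Agent.T9h7.RE.Spec3

/-!
The negated form of the question for refutations which return to narrow configurations.
-/

set_option autoImplicit false
open Filter

namespace Pool.Agent.T9h36.RE

open Pool.Agent.T9h7.RD Pool.Agent.T9h7.RE

theorem log_two {n : ℕ} (hn2 : 2 ≤ n) :
    Real.log ((n : ℝ) + 2) ≤ 2 * Real.log n := by
  have h2 : (2 : ℝ) ≤ (n : ℝ) := by exact_mod_cast hn2
  have : (2 : ℝ) * Real.log n = Real.log ((n : ℝ) ^ 2) := by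
    rw [Real.log_pow]; norm_num
  rw [this]
  apply Real.log_le_log (by linarith)
  nlinarith

theorem log_exp_two {x y : ℝ} (hx : 1 ≤ x) (hy0 : 0 ≤ y) (hy : y ≤ Real.exp x) :
    Real.log (y + 2) ≤ 2 * x := by
  have h1 : y + 2 ≤ Real.exp (x + 1) := by
    rw [Real.exp_add]
    have h2 := Real.add_one_le_exp x
    have h3 := Real.add_one_le_exp (1 : ℝ)
    nlinarith [Real.exp_pos x]
  have h4 : Real.log (y + 2) ≤ x + 1 := by
    rw [Real.log_le_iff_le_exp (by linarith)]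
    exact h1
  linarith

theorem sCorB : SCorB := by
  intro hmain F D hD hlarge c δ hδ hδ1
  obtain ⟨K, hK⟩ := hmain
  obtain ⟨k, hk⟩ : ∃ k : ℕ, ((2 * c + 4 : ℕ) : ℝ) / δ ≤ (k : ℝ) := exists_nat_ge _
  have hD1 := (hlarge (2 * k + 3)).eventually_gt_atTop (10 * (K : ℝ) + 1)
  have hlogev : ∀ᶠ n : ℕ in atTop, 10 * (K : ℝ) + 1 ≤ Real.log (n : ℝ) :=
    (Real.tendsto_log_atTop.comp tendsto_natCast_atTop_atTop).eventually_ge_atTop _
  filter_upwards [hD1, hlogev, eventually_ge_atTop 2] with n hDn hn1 hn2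
  intro τ s w Λ M hM hs hw hΛ hwin
  by_contra hcon
  push Not at hcon
  have hK0 : (0 : ℝ) ≤ (K : ℝ) := Nat.cast_nonneg K
  have hlog1 : 1 ≤ Real.log (n : ℝ) := by linarith
  have hlogpos : 0 < Real.log (n : ℝ) := by linarith
  have hb := hK n (F n) (D n) s w Λ τ M (hD n) hM hs hwin
  have hDpos : 10 * (K : ℝ) * Real.log (n : ℝ) ^ (2 * k + 3) < (D n : ℝ) := by
    rw [lt_div_iff₀ (by positivity)] at hDn
    have : 0 < Real.log (n : ℝ) ^ (2 * k + 3) := by positivity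
    nlinarith
  have hD0 : (0 : ℝ) < (D n : ℝ) := by
    have : 0 ≤ 10 * (K : ℝ) * Real.log (n : ℝ) ^ (2 * k + 3) := by positivity
    linarith
  have hspos : 0 < s := by
    rcases Nat.eq_zero_or_pos s with h | h
    · subst h
      exfalso
      have h1 : (D n : ℝ) ≤ 0 := by
        refine hb.trans ?_
        simp
      linarith
    · exact h
  have hs0 : (0 : ℝ) < (s : ℝ) := by exact_mod_cast hspos
  have hs1 : (1 : ℝ) ≤ (s : ℝ) := by exact_mod_cast hspos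
  have hx1 : (1 : ℝ) ≤ (s : ℝ) ^ (1 - δ) := Real.one_le_rpow hs1 (by linarith)
  have hxs : (s : ℝ) ^ (1 - δ) ≤ (s : ℝ) := by
    conv_rhs => rw [← Real.rpow_one (s : ℝ)]
    exact Real.rpow_le_rpow_of_exponent_le hs1 (by linarith)
  have hxδ : (s : ℝ) = (s : ℝ) ^ (1 - δ) * (s : ℝ) ^ δ := by
    rw [← Real.rpow_add hs0]
    norm_num
  have hlogΛ := log_exp_two hx1 (Nat.cast_nonneg Λ) hΛ
  generalize hx : (s : ℝ) ^ (1 - δ) = x at *
  have hL := log_two hn2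
  have h2n : (2 : ℝ) ≤ (n : ℝ) := by exact_mod_cast hn2
  have hL0 : 0 ≤ Real.log ((n : ℝ) + 2) := Real.log_nonneg (by linarith)
  have hL3 : Real.log ((n : ℝ) + 2) ^ 3 ≤ 8 * Real.log (n : ℝ) ^ 3 := by
    calc Real.log ((n : ℝ) + 2) ^ 3 ≤ (2 * Real.log (n : ℝ)) ^ 3 := pow_le_pow_left₀ hL0 hL 3
      _ = 8 * Real.log (n : ℝ) ^ 3 := by ring
  have hl3 : (1 : ℝ) ≤ Real.log (n : ℝ) ^ 3 := one_le_pow₀ hlog1
  have hx0 : 0 ≤ x := by linarith
  have hsum : (w : ℝ) * Real.log ((n : ℝ) + 2) ^ 3 + Real.log ((Λ : ℝ) + 2) ≤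
      10 * x * Real.log (n : ℝ) ^ 3 := by
    have h1 : (w : ℝ) * Real.log ((n : ℝ) + 2) ^ 3 ≤ x * (8 * Real.log (n : ℝ) ^ 3) :=
      mul_le_mul hw hL3 (by positivity) hx0
    have h2 : 2 * x * 1 ≤ 2 * x * Real.log (n : ℝ) ^ 3 :=
      mul_le_mul_of_nonneg_left hl3 (by linarith)
    linarith
  have hb2 : (D n : ℝ) ≤ (K : ℝ) * (s : ℝ) * (10 * x * Real.log (n : ℝ) ^ 3) :=
    hb.trans (mul_le_mul_of_nonneg_left hsum (by positivity))
  -- s ≤ x log ^ (2 c + 4)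
  have h4 : (s : ℝ) ^ 2 ≤ (D n : ℝ) * (Real.log n) ^ (2 * c) := by
    have h5 := pow_le_pow_left₀ hs0.le hcon 2
    refine h5.trans (le_of_eq ?_)
    have h6 : (Real.sqrt (D n : ℝ)) ^ 2 = (D n : ℝ) := Real.sq_sqrt (Nat.cast_nonneg _)
    calc (Real.sqrt (D n : ℝ) * (Real.log n) ^ c) ^ 2
        = (Real.sqrt (D n : ℝ)) ^ 2 * ((Real.log n) ^ c) ^ 2 := by ring
      _ = (D n : ℝ) * (Real.log n) ^ (2 * c) := by
          rw [h6, ← pow_mul, mul_comm c 2]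
  have h7 : (s : ℝ) * (s : ℝ) ≤ (s : ℝ) * (x * (Real.log n) ^ (2 * c + 4)) := by
    calc (s : ℝ) * (s : ℝ) = (s : ℝ) ^ 2 := by ring
      _ ≤ (D n : ℝ) * (Real.log n) ^ (2 * c) := h4
      _ ≤ ((K : ℝ) * (s : ℝ) * (10 * x * Real.log (n : ℝ) ^ 3)) * (Real.log n) ^ (2 * c) :=
          mul_le_mul_of_nonneg_right hb2 (by positivity)
      _ = (10 * (K : ℝ)) * ((s : ℝ) * x * (Real.log (n : ℝ) ^ 3 * (Real.log n) ^ (2 * c))) := by
          ring
      _ ≤ Real.log n * ((s : ℝ) * x * (Real.log (n : ℝ) ^ 3 * (Real.log n) ^ (2 * c))) :=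
          mul_le_mul_of_nonneg_right (by linarith) (by positivity)
      _ = (s : ℝ) * (x * (Real.log n) ^ (2 * c + 4)) := by ring
  have h1 : (s : ℝ) ≤ x * (Real.log n) ^ (2 * c + 4) := le_of_mul_le_mul_left h7 hs0
  have h2 : (s : ℝ) ^ δ ≤ (Real.log n) ^ (2 * c + 4) := by
    have h5 : x * (s : ℝ) ^ δ ≤ x * (Real.log n) ^ (2 * c + 4) := by
      rw [← hxδ]; exact h1
    exact le_of_mul_le_mul_left h5 (by linarith)
  have h6 : (s : ℝ) ≤ (Real.log n) ^ k := by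
    have h7 : (s : ℝ) = ((s : ℝ) ^ δ) ^ (1 / δ) := by
      rw [← Real.rpow_mul hs0.le, mul_one_div_cancel hδ.ne', Real.rpow_one]
    rw [h7]
    calc ((s : ℝ) ^ δ) ^ (1 / δ) ≤ ((Real.log n) ^ (2 * c + 4)) ^ (1 / δ) :=
          Real.rpow_le_rpow (Real.rpow_nonneg hs0.le _) h2 (by positivity)
      _ = (Real.log n) ^ (((2 * c + 4 : ℕ) : ℝ) / δ) := by
          rw [← Real.rpow_natCast, ← Real.rpow_mul hlogpos.le]
          congr 1
          ring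
      _ ≤ (Real.log n) ^ (k : ℝ) := Real.rpow_le_rpow_of_exponent_le hlog1 hk
      _ = (Real.log n) ^ k := Real.rpow_natCast _ _
  have h11 : (D n : ℝ) ≤ 10 * (K : ℝ) * Real.log (n : ℝ) ^ (2 * k + 3) := by
    calc (D n : ℝ)
        ≤ (K : ℝ) * (s : ℝ) * (10 * x * Real.log (n : ℝ) ^ 3) := hb2
      _ ≤ (K : ℝ) * (s : ℝ) * (10 * s * Real.log (n : ℝ) ^ 3) := by gcongr
      _ = 10 * (K : ℝ) * (s : ℝ) ^ 2 * (Real.log n) ^ 3 := by ring
      _ ≤ 10 * (K : ℝ) * ((Real.log n) ^ k) ^ 2 * (Real.log n) ^ 3 := by gcongr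
      _ = 10 * (K : ℝ) * Real.log (n : ℝ) ^ (2 * k + 3) := by ring
  linarith

end Pool.Agent.T9h36.RE

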